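import Pool.Agent.E8helper19.PM.Stm

/-! # Project PM: piece PM17 (`S_BLOW`) -/

set_option autoImplicit false
open MeasureTheory Filter Topology Set
open scoped ContDiff ENNReal Real InnerProductSpace

namespace Pool.Agent.E8helper15.PM

open Pool.Agent.E8helper19.PM

lemma smoothSet_isOpen {D : Set E} (h : SmoothSet D) : IsOpen D := by
  obtain ⟨ρ, hρ, hD, -⟩ := h
  rw [hD]
  exact isOpen_lt hρ.continuous continuous_const

lemma measurableSet_Cone (z a : E) (r α : ℝ) : MeasurableSet (Cone z a r α) := by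
  have h1 : IsOpen {y : E | ‖y - z‖ < r} :=
    isOpen_lt (by fun_prop) continuous_const
  have h2 : IsOpen {y : E | ‖y - z‖ * Real.cos (π * α / 2) < ⟪y - z, a⟫_ℝ} :=
    isOpen_lt (by fun_prop) (by fun_prop)
  exact (h1.inter h2).measurableSet

lemma H1_mono {k : ℝ} {Ω U V : Set E} {v : E → ℂ} (hv : Helm k Ω v)
    (hUV : U ⊆ V) (hV : V ⊆ Ω) : H1 U v ≤ H1 V v := by
  unfold H1
  refine setIntegral_mono_set (hv.fin.mono_set hV) ?_ hUV.eventuallyLE
  filter_upwards with y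
  positivity

lemma nseq_comp {k : ℝ} {Ω : Set E} {G : E → ℂ} {x : E} {σ : ℝ → E} {v : ℕ → E → ℂ}
    (h : NSeq k Ω G x σ v) {φ : ℕ → ℕ} (hφ : StrictMono φ) :
    NSeq k Ω G x σ (fun n => v (φ n)) :=
  ⟨fun n => h.sol (φ n), fun K hK hKs => (h.conv K hK hKs).comp hφ.tendsto_atTop⟩

theorem t_BLOW (h : S_FAT) (h2 : S_CONE) (h3 : S_HIT) (h4 : S_CUT) : S_BLOW := by
  intro k Ω D G x σ v hk hΩ hΩb hD hDΩ hG hx hσ hor hv
  by_contra hcon
  obtain ⟨C, hC⟩ : ∃ C : ℝ, ∃ᶠ n in atTop, H1 D (v n) ≤ C := by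
    rw [tendsto_atTop] at hcon
    push Not at hcon
    obtain ⟨C, hC⟩ := hcon
    exact ⟨C, hC.mono fun n hn => hn.le⟩
  obtain ⟨φ, hφ, hφC⟩ := extraction_of_frequently_atTop hC
  have hw := nseq_comp hv hφ
  have hDo := smoothSet_isOpen hD
  have hDΩ' : D ⊆ Ω := subset_closure.trans hDΩ
  by_cases hxD : x ∈ closure D
  · obtain ⟨a, r, α, ha, hr, hα, hα1, hcone⟩ := h2 D x hD hxD
    exact h k Ω G x σ _ a r α C hΩ hG hσ hw ha hr hα hα1 (hcone.trans hDΩ')
      fun n => (H1_mono (hw.sol n) hcone hDΩ').trans (hφC n)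
  · obtain ⟨p, ⟨t, ht, rfl⟩, hpD⟩ := hor.resolve_left hxD
    have ht0 : 0 < t := by
      rcases ht.1.lt_or_eq with h0 | h0
      · exact h0
      · exfalso
        subst h0
        exact (hΩ.frontier_eq ▸ hσ.start).2 (hDΩ' hpD)
    have hxnD : x ∉ D := fun hx' => hxD (subset_closure hx')
    have ht1 : t < 1 := by
      rcases ht.2.lt_or_eq with h0 | h0
      · exact h0
      · exfalso
        subst h0
        rw [hσ.fin] at hpD
        exact hxnD hpD
    have hpx : σ t ≠ x := fun he => hxnD (he ▸ hpD)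
    obtain ⟨r, hr, hrD, hrx, hconv⟩ := h3 k Ω D G x σ _ C (σ t) hΩ hDo hDΩ'
      (hΩb.subset hDΩ') hG hσ hw hpD hpx hφC
    obtain ⟨s, C', hs, hsΩ, hC'⟩ := h4 k Ω G x σ _ t r hk hΩ hΩb hG hx hσ hw ht0 ht1 hr
      (hrD.trans hDΩ') hrx hconv
    have hsub : Cone x (EuclideanSpace.single 0 1) s (1 / 2) ⊆ Metric.ball x s := by
      intro y hy
      rw [Metric.mem_ball, dist_eq_norm]
      exact hy.1
    have hb : Metric.ball x s ⊆ Ω := Metric.ball_subset_closedBall.trans hsΩ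
    exact h k Ω G x σ _ (EuclideanSpace.single 0 1) s (1 / 2) C' hΩ hG hσ hw (by simp) hs
      (by norm_num) (by norm_num) (hsub.trans hb)
      fun n => (H1_mono (hw.sol n) hsub hb).trans (hC' n)

end Pool.Agent.E8helper15.PM
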