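import Pool.Agent.E8helper19.PM.Stm

/-! # Project PM: piece PM14 (`S_HIT`) -/

set_option autoImplicit false
open MeasureTheory Filter Topology Set
open scoped ContDiff ENNReal Real InnerProductSpace

namespace Pool.Agent.E8helper15.PM.Hit

open Pool.Agent.E8helper19.PM

/-! ### calculus -/

lemma contDiffOn_pd {U : Set E} {f : E → ℂ} (hU : IsOpen U) (hf : ContDiffOn ℝ ∞ f U)
    (j : Fin 3) : ContDiffOn ℝ ∞ (pd j f) U := by
  have h : ContDiffOn ℝ ∞ (fderiv ℝ f) U := hf.fderiv_of_isOpen hU (by simp)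
  exact h.clm_apply contDiffOn_const

lemma continuousOn_gr {U : Set E} {f : E → ℂ} (hU : IsOpen U) (hf : ContDiffOn ℝ ∞ f U) :
    ContinuousOn (gr f) U := by
  have h : ContinuousOn (fun y => fun j => pd j f y) U :=
    continuousOn_pi.2 fun j => (contDiffOn_pd hU hf j).continuousOn
  exact (PiLp.continuous_toLp 2 _).comp_continuousOn h

lemma diffAt {U : Set E} {f : E → ℂ} (hU : IsOpen U) (hf : ContDiffOn ℝ ∞ f U) {y : E}
    (hy : y ∈ U) : DifferentiableAt ℝ f y :=
  (hf.differentiableOn (by simp)).differentiableAt (hU.mem_nhds hy)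

lemma pd_sub {f g : E → ℂ} {y : E} (hf : DifferentiableAt ℝ f y)
    (hg : DifferentiableAt ℝ g y) (j : Fin 3) :
    pd j (fun z => f z - g z) y = pd j f y - pd j g y := by
  unfold pd
  rw [fderiv_fun_sub hf hg]
  simp

lemma gr_sub {f g : E → ℂ} {y : E} (hf : DifferentiableAt ℝ f y)
    (hg : DifferentiableAt ℝ g y) :
    gr (fun z => f z - g z) y = gr f y - gr g y := by
  ext j
  simp [gr, pd_sub hf hg]

lemma pd_congr {f g : E → ℂ} {y : E} (h : f =ᶠ[𝓝 y] g) (j : Fin 3) : pd j f y = pd j g y := by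
  unfold pd
  rw [h.fderiv_eq]

lemma lap_sub {U : Set E} {f g : E → ℂ} (hU : IsOpen U) (hf : ContDiffOn ℝ ∞ f U)
    (hg : ContDiffOn ℝ ∞ g U) {y : E} (hy : y ∈ U) :
    lap (fun z => f z - g z) y = lap f y - lap g y := by
  unfold lap
  rw [← Finset.sum_sub_distrib]
  refine Finset.sum_congr rfl fun j _ => ?_
  have h : pd j (fun z => f z - g z) =ᶠ[𝓝 y] fun z => pd j f z - pd j g z := by
    filter_upwards [hU.mem_nhds hy] with z hz
    exact pd_sub (diffAt hU hf hz) (diffAt hU hg hz) j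
  rw [pd_congr h, pd_sub (diffAt hU (contDiffOn_pd hU hf j) hy)
    (diffAt hU (contDiffOn_pd hU hg j) hy)]

lemma pd_shift (G : E → ℂ) (x y : E) (j : Fin 3) :
    pd j (fun z => G (z - x)) y = pd j G (y - x) := by
  unfold pd
  rw [fderiv_comp_sub]

lemma lap_shift (G : E → ℂ) (x y : E) :
    lap (fun z => G (z - x)) y = lap G (y - x) := by
  unfold lap
  refine Finset.sum_congr rfl fun j _ => ?_
  have h : pd j (fun z => G (z - x)) = fun z => pd j G (z - x) := by
    ext z; exact pd_shift G x z j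
  rw [h]
  exact pd_shift (pd j G) x y j

lemma pd_smul {f : E → ℂ} {y : E} (hf : DifferentiableAt ℝ f y) (c : ℂ) (j : Fin 3) :
    pd j (fun z => c * f z) y = c * pd j f y := by
  unfold pd
  rw [fderiv_const_mul hf]
  simp

lemma gr_smul {f : E → ℂ} {y : E} (hf : DifferentiableAt ℝ f y) (c : ℂ) :
    gr (fun z => c * f z) y = c • gr f y := by
  ext j
  simp [gr, pd_smul hf]

/-! ### integrals -/

lemma cont_dens {U : Set E} {f : E → ℂ} (hU : IsOpen U) (hf : ContDiffOn ℝ ∞ f U) :
    ContinuousOn (fun y => ‖f y‖ ^ 2 + ‖gr f y‖ ^ 2) U :=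
  (hf.continuousOn.norm.pow 2).add ((continuousOn_gr hU hf).norm.pow 2)

lemma int_dens {U K : Set E} {f : E → ℂ} (hU : IsOpen U) (hf : ContDiffOn ℝ ∞ f U)
    (hK : IsCompact K) (hKU : K ⊆ U) :
    IntegrableOn (fun y => ‖f y‖ ^ 2 + ‖gr f y‖ ^ 2) K :=
  ((cont_dens hU hf).mono hKU).integrableOn_compact hK

lemma int_f {U K : Set E} {f : E → ℂ} (hf : ContDiffOn ℝ ∞ f U)
    (hK : IsCompact K) (hKU : K ⊆ U) : IntegrableOn (fun y => ‖f y‖ ^ 2) K :=
  ((hf.continuousOn.norm.pow 2).mono hKU).integrableOn_compact hK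

lemma int_g {U K : Set E} {f : E → ℂ} (hU : IsOpen U) (hf : ContDiffOn ℝ ∞ f U)
    (hK : IsCompact K) (hKU : K ⊆ U) : IntegrableOn (fun y => ‖gr f y‖ ^ 2) K :=
  ((((continuousOn_gr hU hf).norm.pow 2)).mono hKU).integrableOn_compact hK

lemma sq_sub_le {V : Type*} [NormedAddCommGroup V] (a b : V) :
    ‖a - b‖ ^ 2 ≤ 2 * ‖a‖ ^ 2 + 2 * ‖b‖ ^ 2 := by
  have h := norm_sub_le a b
  have h0 := norm_nonneg (a - b)
  nlinarith [sq_nonneg (‖a‖ - ‖b‖), norm_nonneg a, norm_nonneg b]

theorem t_HIT (h : S_R0) (h2 : S_CAC) (h3 : S_NULL) : S_HIT := by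
  intro k Ω D G x σ v C p hΩ hD hDΩ hDb hG hσ hv hp hpx hC
  -- the open set `D' = D \ {x}`
  have hD' : IsOpen (D \ {x}) := hD.sdiff isClosed_singleton
  obtain ⟨r1, hr1, hball⟩ : ∃ r1 > 0, Metric.closedBall p r1 ⊆ D \ {x} :=
    Metric.nhds_basis_closedBall.mem_iff.1 (hD'.mem_nhds ⟨hp, hpx⟩)
  set r0 : ℝ := r1 / 2 with hr0
  set r : ℝ := r0 / 2 with hr
  have hr0p : 0 < r0 := by positivity
  have hrp : 0 < r := by positivity
  have hr01 : r0 < r1 := by rw [hr0]; linarith
  have hrr0 : r < r0 := by rw [hr]; linarith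
  obtain ⟨hScpt, hSnull⟩ := h3.2 Ω x σ hσ
  -- smoothness
  have hGs : ContDiffOn ℝ ∞ (fun y => G (y - x)) (D \ {x}) := by
    refine hG.smooth.comp (contDiff_id.sub contDiff_const).contDiffOn ?_
    intro y hy
    simp only [mem_compl_iff, mem_singleton_iff, sub_eq_zero]
    exact hy.2
  have hvs : ∀ n, ContDiffOn ℝ ∞ (v n) (D \ {x}) := fun n =>
    (hv.sol n).smooth.mono (sdiff_subset.trans hDΩ)
  set f : ℕ → E → ℂ := fun n y => v n y - G (y - x) with hf
  have hfs : ∀ n, ContDiffOn ℝ ∞ (f n) (D \ {x}) := fun n => (hvs n).sub hGs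
  have hfl : ∀ n, ∀ y ∈ D \ {x}, lap (f n) y = -((k ^ 2 : ℝ) : ℂ) * f n y := by
    intro n y hy
    have e : lap (f n) y = lap (v n) y - lap (fun z => G (z - x)) y :=
      lap_sub hD' (hvs n) hGs hy
    rw [e, lap_shift, (hv.sol n).eq y (hDΩ hy.1),
      hG.eq (y - x) (sub_ne_zero.2 hy.2), hf]
    ring
  have hK1 : IsCompact (Metric.closedBall p r1) := isCompact_closedBall p r1
  have hb0 : Metric.closedBall p r0 ⊆ D \ {x} :=
    (Metric.closedBall_subset_closedBall hr01.le).trans hball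
  have hbb0 : Metric.ball p r0 ⊆ D \ {x} := Metric.ball_subset_closedBall.trans hb0
  have hK0 : IsCompact (Metric.closedBall p r0) := isCompact_closedBall p r0
  -- bound of the energy of `f n` in `ball p r0`
  set C1 : ℝ := 2 * C + 2 * H1 (Metric.ball p r0) (fun y => G (y - x)) + 1 with hC1
  have hHnn : ∀ (U : Set E) (g : E → ℂ), 0 ≤ H1 U g := fun U g => by
    unfold H1
    exact integral_nonneg fun y => by positivity
  have hbound : ∀ n, H1 (Metric.ball p r0) (f n) ≤ C1 := by
    intro n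
    have i1 := (int_dens hD' (hvs n) hK0 hb0).mono_set Metric.ball_subset_closedBall
    have i2 := (int_dens hD' hGs hK0 hb0).mono_set Metric.ball_subset_closedBall
    have i3 := (int_dens hD' (hfs n) hK0 hb0).mono_set Metric.ball_subset_closedBall
    have e1 : H1 (Metric.ball p r0) (f n) ≤
        2 * H1 (Metric.ball p r0) (v n) + 2 * H1 (Metric.ball p r0) (fun y => G (y - x)) := by
      unfold H1
      rw [← integral_const_mul, ← integral_const_mul, ← integral_add (i1.const_mul 2)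
        (i2.const_mul 2)]
      refine setIntegral_mono_on i3 ((i1.const_mul 2).add (i2.const_mul 2))
        Metric.isOpen_ball.measurableSet ?_
      intro y hy
      have e2 : gr (f n) y = gr (v n) y - gr (fun z => G (z - x)) y :=
        gr_sub (diffAt hD' (hvs n) (hbb0 hy)) (diffAt hD' hGs (hbb0 hy))
      have e3 := sq_sub_le (v n y) (G (y - x))
      have e4 := sq_sub_le (gr (v n) y) (gr (fun z => G (z - x)) y)
      rw [e2]
      simp only [hf]
      linarith
    have e5 : H1 (Metric.ball p r0) (v n) ≤ H1 D (v n) := by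
      unfold H1
      refine setIntegral_mono_set ((hv.sol n).fin.mono_set hDΩ) ?_
        (hbb0.trans sdiff_subset).eventuallyLE
      filter_upwards with y
      positivity
    have := hC n
    rw [hC1]
    linarith
  have hC1p : 0 < C1 := by
    have a1 := (hHnn D (v 0)).trans (hC 0)
    have a2 := hHnn (Metric.ball p r0) (fun y => G (y - x))
    rw [hC1]
    linarith
  -- normalisation
  set c : ℝ := (√C1)⁻¹ with hc
  have hc2 : c ^ 2 * C1 = 1 := by
    rw [hc, inv_pow, Real.sq_sqrt hC1p.le]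
    field_simp
  have hcp : 0 < c := by rw [hc]; positivity
  set w : ℕ → E → ℂ := fun n y => (c : ℂ) * f n y with hw
  have hnc : ∀ z : ℂ, ‖(c : ℂ) * z‖ ^ 2 = c ^ 2 * ‖z‖ ^ 2 := by
    intro z
    rw [norm_mul, mul_pow, Complex.norm_real, Real.norm_eq_abs, sq_abs]
  have hncg : ∀ z : C3, ‖(c : ℂ) • z‖ ^ 2 = c ^ 2 * ‖z‖ ^ 2 := by
    intro z
    rw [norm_smul, mul_pow, Complex.norm_real, Real.norm_eq_abs, sq_abs]
  have hsm : SmoothSet (Metric.ball p r0) := by
    refine ⟨fun y => ‖y - p‖ ^ 2 - r0 ^ 2, ?_, ?_, ?_⟩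
    · exact ((contDiff_id.sub contDiff_const).norm_sq ℝ).sub contDiff_const
    · ext y
      rw [Metric.mem_ball, dist_eq_norm, mem_ofPred_eq, sub_neg]
      exact ⟨fun hy => by gcongr, fun hy => lt_of_pow_lt_pow_left₀ 2 hr0p.le hy⟩
    · intro y hy hz
      have hd := (((hasFDerivAt_id (𝕜 := ℝ) y).sub_const p).norm_sq).sub_const (r0 ^ 2)
      have e0 : fderiv ℝ (fun y : E => ‖y - p‖ ^ 2 - r0 ^ 2) y = _ := hd.fderiv
      have e := congrArg (fun L => L (y - p)) e0
      change fderiv ℝ (fun y : E => ‖y - p‖ ^ 2 - r0 ^ 2) y = 0 at hz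
      rw [hz] at e
      simp at e
      have : ‖y - p‖ ^ 2 = r0 ^ 2 := by
        change ‖y - p‖ ^ 2 - r0 ^ 2 = 0 at hy
        linarith
      rw [← inner_sub_left, real_inner_self_eq_norm_sq, this] at e
      have : 0 < r0 ^ 2 := by positivity
      linarith
  have hcl : closure (Metric.ball p r0) ⊆ Metric.ball p r1 := by
    rw [closure_ball p hr0p.ne']
    exact Metric.closedBall_subset_ball hr01
  have hb1 : Metric.ball p r1 ⊆ D \ {x} := Metric.ball_subset_closedBall.trans hball
  have key := h (Metric.ball p r1) (Metric.ball p r0) (σ '' Icc 0 1) w Metric.isOpen_ball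
    Metric.isBounded_ball hsm hcl hScpt hSnull
    (fun n => ((contDiffOn_const.mul (hfs n)).mono hb1).of_le (by simp))
    (by
      intro n
      have e : H1 (Metric.ball p r0) (w n) = c ^ 2 * H1 (Metric.ball p r0) (f n) := by
        unfold H1
        rw [← integral_const_mul]
        refine setIntegral_congr_fun Metric.isOpen_ball.measurableSet ?_
        intro y hy
        have e2 : gr (w n) y = (c : ℂ) • gr (f n) y := gr_smul (diffAt hD' (hfs n) (hbb0 hy)) _
        change ‖w n y‖ ^ 2 + ‖gr (w n) y‖ ^ 2 = c ^ 2 * (‖f n y‖ ^ 2 + ‖gr (f n) y‖ ^ 2)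
        rw [e2, hncg, mul_add, ← hnc (f n y)]
      rw [e, ← hc2]
      have := hbound n
      gcongr)
    (by
      intro K hK hKs
      have hKΩ : K ⊆ Ω \ σ '' Icc 0 1 := fun y hy =>
        ⟨hDΩ (hbb0 (hKs hy).1).1, (hKs hy).2⟩
      have t1 := (hv.conv K hK hKΩ).const_mul (c ^ 2)
      rw [mul_zero] at t1
      refine squeeze_zero (fun n => integral_nonneg fun y => by positivity) (fun n => ?_) t1
      have hKD : K ⊆ D \ {x} := fun y hy => hbb0 (hKs hy).1
      unfold H1
      rw [← integral_const_mul]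
      refine setIntegral_mono_on ?_ ?_ hK.measurableSet ?_
      · simp only [hw, hnc]
        exact (int_f (hfs n) hK hKD).const_mul _
      · exact (int_dens hD' (hfs n) hK hKD).const_mul _
      · intro y _
        simp only [hw, hnc]
        have : 0 ≤ c ^ 2 * ‖gr (fun y => v n y - G (y - x)) y‖ ^ 2 := by positivity
        rw [mul_add]
        simp only [hf]
        linarith)
  -- convergence of `f n` in `L²`
  have key2 : Tendsto (fun n => ∫ y in Metric.ball p r0, ‖f n y‖ ^ 2) atTop (𝓝 0) := by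
    have t := key.const_mul C1
    rw [mul_zero] at t
    refine t.congr fun n => ?_
    simp only [hw, hnc]
    rw [integral_const_mul, ← mul_assoc, mul_comm C1, hc2, one_mul]
  obtain ⟨C3, hC3⟩ := h2 k (Metric.ball p r0) (Metric.closedBall p r) Metric.isOpen_ball
    (isCompact_closedBall p r) (Metric.closedBall_subset_ball hrr0)
  refine ⟨r, hrp, fun y hy => (hb0 (Metric.closedBall_subset_closedBall hrr0.le hy)).1,
    fun hx => (hb0 (Metric.closedBall_subset_closedBall hrr0.le hx)).2 rfl, ?_⟩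
  have t2 : Tendsto (fun n => (1 + C3) * ∫ y in Metric.ball p r0, ‖f n y‖ ^ 2) atTop (𝓝 0) := by
    have := key2.const_mul (1 + C3)
    rwa [mul_zero] at this
  refine squeeze_zero (fun n => hHnn _ _) (fun n => ?_) t2
  have hKr : IsCompact (Metric.closedBall p r) := isCompact_closedBall p r
  have hbr : Metric.closedBall p r ⊆ D \ {x} :=
    (Metric.closedBall_subset_closedBall hrr0.le).trans hb0
  have c1 := hC3 (f n) ((hfs n).mono hbb0) (fun y hy => hfl n y (hbb0 hy))
    ((int_f (hfs n) hK0 hb0).mono_set Metric.ball_subset_closedBall)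
  have j1 := (int_f (hfs n) hKr hbr).mono_set Metric.ball_subset_closedBall
  have j2 := (int_g hD' (hfs n) hKr hbr)
  have j3 := j2.mono_set Metric.ball_subset_closedBall
  have e1 : H1 (Metric.ball p r) (f n) =
      (∫ y in Metric.ball p r, ‖f n y‖ ^ 2) + ∫ y in Metric.ball p r, ‖gr (f n) y‖ ^ 2 := by
    unfold H1
    exact integral_add j1 j3
  have e2 : (∫ y in Metric.ball p r, ‖f n y‖ ^ 2) ≤ ∫ y in Metric.ball p r0, ‖f n y‖ ^ 2 := by
    refine setIntegral_mono_set
      ((int_f (hfs n) hK0 hb0).mono_set Metric.ball_subset_closedBall) ?_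
      (Metric.ball_subset_ball hrr0.le).eventuallyLE
    filter_upwards with y
    positivity
  have e3 : (∫ y in Metric.ball p r, ‖gr (f n) y‖ ^ 2) ≤
      ∫ y in Metric.closedBall p r, ‖gr (f n) y‖ ^ 2 := by
    refine setIntegral_mono_set j2 ?_ Metric.ball_subset_closedBall.eventuallyLE
    filter_upwards with y
    positivity
  change H1 (Metric.ball p r) (f n) ≤ _
  rw [e1]
  linarith

end Pool.Agent.E8helper15.PM.Hit
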